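import Pool.Agent.H381R4.BP.Stubs
import Pool.Agent.H804CM.PCM
import Pool.Agent.H202CM.MAR
import Pool.Agent.H208CM.EXP
import Pool.Agent.H75R6.CM.DET
import Pool.Agent.H806CM.GAU
import Pool.Agent.H77CM.PDF

/-!
# LMA: marginal of the lifted density as a Lebesgue integral (helper398, project of helper381)
-/

set_option autoImplicit false
open MeasureTheory Matrix Filter Topology
open scoped ENNReal BigOperators Pointwise

namespace Pool.Agent.H381BP
open Pool.Agent.H381CM

theorem T_LMA : S_LMA := by
  intro d ι _ u p hsp hp x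
  obtain ⟨h1, h2⟩ := T_MAR (T_EXP T_DET) Pool.Agent.H806CM.T_GAU T_PDF d ι u p hsp
    (fun k => (hp k).1) x
  rw [← h2, ofReal_integral_eq_lintegral_ofReal h1
    (Eventually.of_forall fun q => PCM_GG_nonneg u p hp _ _ _)]

end Pool.Agent.H381BP
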